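import Pool.Agent.H992.PL.Defs2
import Pool.Graph.R_seed8.H983R2.ONJ.Step

/-!
# The recursion step for a fixed coupling of range at most `κ R` (`S_Fin2` from `S_Main2`)
-/

set_option autoImplicit false

noncomputable section

namespace Pool.Agent.H328.PL

open MeasureTheory MvPolynomial Filter Pool.Agent.H5R2.ON Pool.Agent.H717R2.ON3
  Pool.Agent.H983R2.ONJ Pool.Agent.H983R2.ONJ.Aux602 Pool.Agent.H983R2.ONJ.Aux993
  Pool.Agent.H992.PL

/-- multigraph approximation from below of a coupling with second moment at most `A` -/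
theorem nice_of_le {L : ℕ} [NeZero L] (A : ℝ) (c : Tor L × Tor L → ℝ) (hc : Mom2 A c)
    (m : Tor L × Tor L → ℕ) (n : ℕ) (ρ : ℝ)
    (hmc : ∀ e, (m e : ℝ) / n ≤ c e) (hm : ∀ e, m e ≠ 0 → tnorm (e.2 - e.1) ≤ ρ) :
    Nice (gJ m) (1 / (n : ℝ)) ρ A := by
  classical
  have hpt : ∀ x y : Tor L, 1 / (n : ℝ) * ((m (x, y) : ℝ) * tnorm (y - x) ^ 2) ≤
      (c (x, y) + c (y, x)) * (1 + tnorm (y - x)) ^ 2 := by
    intro x y
    have h1 := hmc (x, y)
    have h0 := hc.nonneg (y, x)
    have h3 := hc.nonneg (x, y)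
    have h2 := tn_nonneg (y - x)
    calc 1 / (n : ℝ) * ((m (x, y) : ℝ) * tnorm (y - x) ^ 2)
        = (m (x, y) : ℝ) / n * tnorm (y - x) ^ 2 := by ring
      _ ≤ (c (x, y) + c (y, x)) * (1 + tnorm (y - x)) ^ 2 := by
          refine mul_le_mul (by linarith) (pow_le_pow_left₀ h2 (by linarith) 2) (by positivity)
            (by positivity)
  have hpt' : ∀ x y : Tor L, 1 / (n : ℝ) * ((m (y, x) : ℝ) * tnorm (x - y) ^ 2) ≤
      (c (x, y) + c (y, x)) * (1 + tnorm (y - x)) ^ 2 := by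
    intro x y
    have h := hpt y x
    rw [tnorm_sub_comm x y] at h ⊢
    linarith
  refine ⟨by positivity, ?_, ?_, ?_⟩
  · rintro ⟨e, i⟩
    refine hm e ?_
    intro h0
    rw [h0] at i
    exact i.elim0
  · intro x
    have e1 : ∑ e ∈ Finset.univ.filter (fun e => (gJ m).s e = x),
        tnorm ((gJ m).t e - (gJ m).s e) ^ 2 =
        ∑ e : Tor L × Tor L, (m e : ℝ) * (if e.1 = x then tnorm (e.2 - e.1) ^ 2 else 0) := by
      rw [Finset.sum_filter]
      exact sum_sig m (fun e => if e.1 = x then tnorm (e.2 - e.1) ^ 2 else 0)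
    have e2 : 1 / (n : ℝ) * ∑ e ∈ Finset.univ.filter (fun e => (gJ m).s e = x),
        tnorm ((gJ m).t e - (gJ m).s e) ^ 2 =
        ∑ y : Tor L, 1 / (n : ℝ) * ((m (x, y) : ℝ) * tnorm (y - x) ^ 2) := by
      rw [e1, Fintype.sum_prod_type, Finset.sum_eq_single x]
      · rw [Finset.mul_sum]
        refine Finset.sum_congr rfl fun y _ => ?_
        simp
      · intro b _ hb
        simp [hb]
      · intro h
        exact absurd (Finset.mem_univ x) h
    calc 1 / (n : ℝ) * ∑ e ∈ Finset.univ.filter (fun e => (gJ m).s e = x),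
        tnorm ((gJ m).t e - (gJ m).s e) ^ 2 =
        ∑ y : Tor L, 1 / (n : ℝ) * ((m (x, y) : ℝ) * tnorm (y - x) ^ 2) := e2
      _ ≤ ∑ y : Tor L, (c (x, y) + c (y, x)) * (1 + tnorm (y - x)) ^ 2 :=
          Finset.sum_le_sum fun y _ => hpt x y
      _ ≤ A := hc.mom x
  · intro x
    have e1 : ∑ e ∈ Finset.univ.filter (fun e => (gJ m).t e = x),
        tnorm ((gJ m).t e - (gJ m).s e) ^ 2 =
        ∑ e : Tor L × Tor L, (m e : ℝ) * (if e.2 = x then tnorm (e.2 - e.1) ^ 2 else 0) := by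
      rw [Finset.sum_filter]
      exact sum_sig m (fun e => if e.2 = x then tnorm (e.2 - e.1) ^ 2 else 0)
    have e2 : 1 / (n : ℝ) * ∑ e ∈ Finset.univ.filter (fun e => (gJ m).t e = x),
        tnorm ((gJ m).t e - (gJ m).s e) ^ 2 =
        ∑ y : Tor L, 1 / (n : ℝ) * ((m (y, x) : ℝ) * tnorm (x - y) ^ 2) := by
      rw [e1, Fintype.sum_prod_type_right, Finset.sum_eq_single x]
      · rw [Finset.mul_sum]
        refine Finset.sum_congr rfl fun y _ => ?_
        simp
      · intro b _ hb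
        simp [hb]
      · intro h
        exact absurd (Finset.mem_univ x) h
    calc 1 / (n : ℝ) * ∑ e ∈ Finset.univ.filter (fun e => (gJ m).t e = x),
        tnorm ((gJ m).t e - (gJ m).s e) ^ 2 =
        ∑ y : Tor L, 1 / (n : ℝ) * ((m (y, x) : ℝ) * tnorm (x - y) ^ 2) := e2
      _ ≤ ∑ y : Tor L, (c (x, y) + c (y, x)) * (1 + tnorm (y - x)) ^ 2 :=
          Finset.sum_le_sum fun y _ => hpt' x y
      _ ≤ A := hc.mom x

/-- comparison of two couplings which differ by at most `1 / n` at every pair -/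
theorem cmp_coupling {N L : ℕ} [NeZero L] (hN : N ≠ 0) (c c' : Tor L × Tor L → ℝ) (δ : ℝ)
    (h : ∀ e, |c e - c' e| ≤ δ) (Λ : Finset (Tor L)) (η : Conf N L) {F : Conf N L → ℝ}
    (hF : Measurable F) (hF1 : ∀ S, |F S| ≤ 1) :
    |gH (pS c) Λ η F - gH (pS c') Λ η F| ≤
      Real.exp (2 * ((Fintype.card (Tor L × Tor L) : ℝ) * δ)) - 1 := by
  refine gH_compare hN (continuous_pS c) (continuous_pS c') Λ η 0 _ ?_ hF hF1
  intro S
  have e1 : pS c (splice Λ S η) - pS c' (splice Λ S η) - 0 =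
      ∑ e : Tor L × Tor L, (c e - c' e) * inner ℝ
        (splice Λ S η e.1 : EuclideanSpace ℝ (Fin N)) (splice Λ S η e.2) := by
    unfold pS
    rw [sub_zero, ← Finset.sum_sub_distrib]
    refine Finset.sum_congr rfl fun e _ => ?_
    ring
  rw [e1]
  refine (Finset.abs_sum_le_sum_abs _ _).trans ?_
  have h2 : ∀ e ∈ (Finset.univ : Finset (Tor L × Tor L)), |(c e - c' e) * inner ℝ
        (splice Λ S η e.1 : EuclideanSpace ℝ (Fin N)) (splice Λ S η e.2)| ≤ δ := by
    intro e _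
    rw [abs_mul]
    have h3 := inner_le_one (splice Λ S η e.1) (splice Λ S η e.2)
    refine (mul_le_mul_of_nonneg_left h3 (abs_nonneg (c e - c' e))).trans ?_
    rw [mul_one]
    exact h e
  refine (Finset.sum_le_card_nsmul _ _ _ h2).trans ?_
  rw [nsmul_eq_mul, Finset.card_univ]

theorem fin2 (h : S_Main2) : S_Fin2 := by
  intro N hN A ε hA hε
  have hN0 : N ≠ 0 := by omega
  obtain ⟨κ, hκ, hκ1, hmain⟩ := h A (ε ^ 2) hA (by positivity)
  refine ⟨κ, hκ, hκ1, 1 / κ, (one_le_div hκ).2 hκ1, ?_⟩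
  intro R hR m hm L _ hL c hc hrange hinf p η i
  have hκR : 1 ≤ κ * R := by
    rw [div_le_iff₀ hκ] at hR
    linarith
  have hRpos : 0 < R := lt_of_lt_of_le (by positivity) hR
  have hFc : ∀ j : Fin N, Continuous (fun S : Conf N L => cc j (S p)) := fun j =>
    (st_cc_cont _).comp (continuous_apply _)
  set M : ℝ := (Fintype.card (Tor L × Tor L) : ℝ) with hM
  -- the estimate at level `n`
  have key : ∀ n : ℕ, |gH (pS c) (ball p R) η (fun S => cc i (S p))| ≤
      ε * (m + (Real.exp (2 * (M * (1 / ((n : ℝ) + 1)))) - 1)) +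
        (Real.exp (2 * (M * (1 / ((n : ℝ) + 1)))) - 1) := by
    intro n
    obtain ⟨n', hn'⟩ : ∃ n' : ℕ, n' = n + 1 := ⟨_, rfl⟩
    have hn0 : (0 : ℝ) < n' := by rw [hn']; positivity
    have hnn : (n : ℝ) + 1 = n' := by rw [hn']; push_cast; rfl
    rw [hnn]
    obtain ⟨k, hk⟩ : ∃ k : Tor L × Tor L → ℕ, ∀ e, k e = ⌊(n' : ℝ) * c e⌋₊ := ⟨_, fun e => rfl⟩
    have hkc : ∀ e, (k e : ℝ) / n' ≤ c e := by
      intro e
      rw [div_le_iff₀ hn0, hk, mul_comm (c e)]
      exact Nat.floor_le (mul_nonneg hn0.le (hc.nonneg e))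
    have hkd : ∀ e, |c e - (k e : ℝ) / n'| ≤ 1 / (n' : ℝ) := by
      intro e
      rw [abs_of_nonneg (by linarith [hkc e])]
      have e2 : (n' : ℝ) * c e < (k e : ℝ) + 1 := by
        rw [hk]
        exact Nat.lt_floor_add_one _
      rw [sub_le_iff_le_add, ← add_div, le_div_iff₀ hn0, mul_comm]
      linarith
    have hkr : ∀ e, k e ≠ 0 → tnorm (e.2 - e.1) ≤ κ * R := by
      intro e he
      by_contra hcon
      apply he
      rw [hk, hrange e (not_le.1 hcon)]
      simp
    have hNice := nice_of_le A c hc k n' (κ * R) hkc hkr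
    have hHeq : (fun S : Conf N L => (1 / (n' : ℝ)) * enG (gJ k) S) =
        pS (fun e => (k e : ℝ) / n') := by
      funext S
      exact enG_gJ k n' S
    have hcmp : ∀ (Λ : Finset (Tor L)) (η' : Conf N L) (j : Fin N),
        |gH (pS c) Λ η' (fun S => cc j (S p)) -
          gH (fun S : Conf N L => (1 / (n' : ℝ)) * enG (gJ k) S) Λ η' (fun S => cc j (S p))| ≤
          Real.exp (2 * (M * (1 / (n' : ℝ)))) - 1 := by
      intro Λ η' j
      rw [hHeq]
      exact cmp_coupling hN0 c _ (1 / (n' : ℝ)) hkd Λ η' (hFc j).measurable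
        (fun S => st_cc_abs_le _ _)
    have hd0 : 0 ≤ Real.exp (2 * (M * (1 / (n' : ℝ)))) - 1 := by
      have : (1 : ℝ) ≤ Real.exp (2 * (M * (1 / (n' : ℝ)))) := Real.one_le_exp (by positivity)
      linarith
    have h1 : |gH (fun S : Conf N L => (1 / (n' : ℝ)) * enG (gJ k) S) (ball p R) η
        (fun S => cc i (S p))| ≤ ε * (m + (Real.exp (2 * (M * (1 / (n' : ℝ)))) - 1)) := by
      refine core hN hε (gJ k) (1 / (n' : ℝ)) R _ hRpos (by linarith) p ?_ ?_ η i
      · intro W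
        exact hmain R L hL (gJ k) (1 / (n' : ℝ)) (κ * R) hNice hκR le_rfl p W
      · intro η' j
        have h2 := hinf p η' j
        have h3 := hcmp (ball p (R / 10)) η' j
        have h4 : gH (fun S : Conf N L => (1 / (n' : ℝ)) * enG (gJ k) S) (ball p (R / 10)) η'
            (fun S => cc j (S p)) = gH (pS c) (ball p (R / 10)) η' (fun S => cc j (S p)) -
            (gH (pS c) (ball p (R / 10)) η' (fun S => cc j (S p)) -
              gH (fun S : Conf N L => (1 / (n' : ℝ)) * enG (gJ k) S) (ball p (R / 10)) η'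
                (fun S => cc j (S p))) := by ring
        rw [h4]
        exact (abs_sub _ _).trans (add_le_add h2 h3)
    have h3 : gH (pS c) (ball p R) η (fun S => cc i (S p)) =
        gH (fun S : Conf N L => (1 / (n' : ℝ)) * enG (gJ k) S) (ball p R) η
          (fun S => cc i (S p)) +
        (gH (pS c) (ball p R) η (fun S => cc i (S p)) -
          gH (fun S : Conf N L => (1 / (n' : ℝ)) * enG (gJ k) S) (ball p R) η
            (fun S => cc i (S p))) := by ring
    rw [h3]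
    exact (abs_add_le _ _).trans (add_le_add h1 (hcmp (ball p R) η i))
  -- passage to the limit
  have hlim0 : Tendsto (fun n : ℕ => 1 / ((n : ℝ) + 1)) atTop (nhds 0) :=
    tendsto_one_div_add_atTop_nhds_zero_nat
  have hlim1 : Tendsto (fun n : ℕ => Real.exp (2 * (M * (1 / ((n : ℝ) + 1)))) - 1) atTop
      (nhds 0) := by
    have h5 : Continuous (fun t : ℝ => Real.exp (2 * (M * t)) - 1) := by fun_prop
    have h6 := (h5.tendsto 0).comp hlim0
    have h7 : Real.exp (2 * (M * 0)) - 1 = 0 := by simp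
    rw [h7] at h6
    exact h6
  have hlim2 : Tendsto (fun n : ℕ => ε * (m + (Real.exp (2 * (M * (1 / ((n : ℝ) + 1)))) - 1)) +
        (Real.exp (2 * (M * (1 / ((n : ℝ) + 1)))) - 1)) atTop (nhds (ε * (m + 0) + 0)) :=
    ((hlim1.const_add m).const_mul ε).add hlim1
  rw [add_zero, add_zero] at hlim2
  exact ge_of_tendsto' hlim2 key

end Pool.Agent.H328.PL
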